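import Pool.Agent.helper80.SV.Spec

/-! # Project sv (MP_b5a345_ag), module HOM -/

set_option autoImplicit false

namespace Pool.Agent.SV

open MvPolynomial Module

section

variable {ι κ : Type} [Fintype ι] [DecidableEq ι] [Fintype κ] [DecidableEq κ]

theorem HOM_scale (c : ι → κ) (A : Finset ι) (d : κ → ℕ) (f : MvPolynomial ι ℂ)
    (hf : f ∈ Sec c A d) (s : κ → ℂ) (x : ι → ℂ) :
    eval (fun i => s (c i) * x i) f = (∏ k, s k ^ d k) * eval x f := by
  rw [eval_eq', eval_eq', Finset.mul_sum]
  refine Finset.sum_congr rfl fun m hm => ?_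
  have hm' : m ∈ Mon c A d := mem_Sec.1 hf m (by simpa [MvPolynomial.mem_support_iff] using hm)
  have h1 : ∏ i, s (c i) ^ m i = ∏ k, s k ^ d k := by
    rw [← Finset.prod_fiberwise Finset.univ c (fun i => s (c i) ^ m i)]
    refine Finset.prod_congr rfl fun k _ => ?_
    rw [← hm'.2 k, ← Finset.prod_pow_eq_pow_sum]
    refine Finset.prod_congr rfl fun i hi => ?_
    rw [(Finset.mem_filter.1 hi).2]
  have h2 : ∏ i, (s (c i) * x i) ^ m i = (∏ k, s k ^ d k) * ∏ i, x i ^ m i := by
    rw [← h1, ← Finset.prod_mul_distrib]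
    exact Finset.prod_congr rfl fun i _ => mul_pow _ _ _
  rw [h2]
  ring

theorem HOM_pderiv (c : ι → κ) (A : Finset ι) (d : κ → ℕ) (f : MvPolynomial ι ℂ)
    (hf : f ∈ Sec c A d) (i : ι) : pderiv i f ∈ Sec c A (low d (c i)) := by
  rw [f.as_sum, map_sum]
  refine Submodule.sum_mem _ fun m hm => ?_
  have hm' : m ∈ Mon c A d := mem_Sec.1 hf m (by simpa [MvPolynomial.mem_support_iff] using hm)
  rw [pderiv_monomial]
  by_cases h0 : m i = 0
  · rw [h0, Nat.cast_zero, mul_zero, monomial_zero]
    exact Submodule.zero_mem _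
  · rw [mem_Sec]
    intro m' hc
    rw [coeff_monomial] at hc
    have hmm : m - Finsupp.single i 1 = m' := by
      by_contra h
      rw [if_neg h] at hc
      exact hc rfl
    subst hmm
    refine ⟨fun j hj => ?_, fun k => ?_⟩
    · rw [Finsupp.tsub_apply, hm'.1 j hj, Nat.zero_sub]
    · have h1 := hm'.2 k
      unfold low
      by_cases hk : k = c i
      · subst hk
        rw [Function.update_self]
        have hi : i ∈ Finset.univ.filter (fun j => c j = c i) := by simp
        have h2 : ∑ j ∈ Finset.univ.filter (fun j => c j = c i), (m - Finsupp.single i 1 : ι →₀ ℕ) j + 1 =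
            ∑ j ∈ Finset.univ.filter (fun j => c j = c i), m j := by
          rw [← Finset.add_sum_erase _ _ hi, ← Finset.add_sum_erase _ (fun j => m j) hi]
          have h3 : ∑ j ∈ (Finset.univ.filter (fun j => c j = c i)).erase i,
              (m - Finsupp.single i 1 : ι →₀ ℕ) j =
              ∑ j ∈ (Finset.univ.filter (fun j => c j = c i)).erase i, m j := by
            refine Finset.sum_congr rfl fun j hj => ?_
            rw [Finsupp.tsub_apply, Finsupp.single_eq_of_ne (Finset.ne_of_mem_erase hj),
              Nat.sub_zero]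
          rw [h3, Finsupp.tsub_apply, Finsupp.single_eq_same]
          omega
        omega
      · rw [Function.update_of_ne hk]
        rw [← h1]
        refine Finset.sum_congr rfl fun j hj => ?_
        have hji : j ≠ i := by
          rintro rfl
          exact hk (Finset.mem_filter.1 hj).2.symm
        rw [Finsupp.tsub_apply, Finsupp.single_eq_of_ne hji, Nat.sub_zero]

end

theorem HOM : HOM_stmt := by
  intro ι κ _ _ _ _ c A d f hf
  refine ⟨HOM_scale c A d f hf, ?_, ?_, ?_, ?_⟩
  · intro s x i h
    rw [HOM_scale c A _ _ (HOM_pderiv c A d f hf i), h, mul_zero]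
  · intro i hi
    apply pderiv_eq_zero_of_notMem_vars
    intro hv
    obtain ⟨m, hm, him⟩ := (mem_vars_iff_mem_support i).1 hv
    have hm' : m ∈ Mon c A d := mem_Sec.1 hf m (by simpa [MvPolynomial.mem_support_iff] using hm)
    exact (Finsupp.mem_support_iff.1 him) (hm'.1 i hi)
  · exact fun i => Or.inl (HOM_pderiv c A d f hf i)
  · intro x
    rw [eval_eq', eval_eq']
    refine Finset.sum_congr rfl fun m hm => ?_
    have hm' : m ∈ Mon c A d := mem_Sec.1 hf m (by simpa [MvPolynomial.mem_support_iff] using hm)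
    congr 1
    refine Finset.prod_congr rfl fun i _ => ?_
    unfold cut
    by_cases hi : i ∈ A
    · rw [if_pos hi]
    · rw [if_neg hi, hm'.1 i hi, pow_zero, pow_zero]

end Pool.Agent.SV
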