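import Pool.Agent.helper65.SV.SpecE

/-! # Project sv: (MP_b5a345_ag), module PTW -/

set_option autoImplicit false
set_option linter.unusedSectionVars false

namespace Pool.Agent.SV

open Module

section
variable {K : Type} [Fintype K] [DecidableEq K] {n : K → ℕ}

theorem PTW_eval (h : Cell n → Polynomial ℂ) (t : ℂ) (h1 : ∀ χ, (h χ).eval t = 1) (χ : Cell n) :
    (sfun h χ).eval t = 1 := by
  unfold sfun
  rw [Polynomial.eval_mul, Polynomial.eval_pow, h1, Polynomial.eval_prod, one_pow, one_mul]
  exact Finset.prod_eq_one fun χ' _ => h1 χ'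

theorem PTW_deriv (h : Cell n → Polynomial ℂ) (t : ℂ) (h1 : ∀ χ, (h χ).eval t = 1) (χ : Cell n) :
    (Polynomial.derivative (sfun h χ)).eval t = 2 * (Polynomial.derivative (h χ)).eval t +
      ∑ χ' ∈ Finset.univ.filter (fun χ' => hammingDist χ χ' = 1),
        (Polynomial.derivative (h χ')).eval t := by
  unfold sfun
  rw [Polynomial.derivative_mul, Polynomial.derivative_sq, Polynomial.derivative_prod_finset]
  simp only [Polynomial.eval_add, Polynomial.eval_mul, Polynomial.eval_pow, Polynomial.eval_C,
    Polynomial.eval_prod, Polynomial.eval_finsetSum, h1, Finset.prod_const_one, one_mul, mul_one,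
    one_pow]

theorem PTW_hat (F : Cell n → Polynomial ℂ) (χ : Cell n) (t : ℂ) :
    (hatF F χ).eval t = ∑ c, chr χ c * (F c).eval t := by
  unfold hatF
  rw [Polynomial.eval_finsetSum]
  exact Finset.sum_congr rfl fun c _ => by rw [Polynomial.eval_mul, Polynomial.eval_C]

end

theorem PTW (hPCH : PCH_stmt) (hPEV : PEV_stmt) : PTW_stmt := by
  intro K _ _ n h F G γ t b hh hFG
  obtain ⟨p1, p2, p3, p4, p5, p6, p7⟩ := hPCH K n
  have h1 : ∀ χ, (h χ).eval t = 1 := fun χ => (hh χ).1
  have hs1 : ∀ χ, (sfun h χ).eval t = 1 := PTW_eval h t h1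
  have hs2 : ∀ χ, (Polynomial.derivative (sfun h χ)).eval t = b * (lamE γ : ℂ) * chr χ γ := by
    intro χ
    rw [PTW_deriv h t h1 χ, (hh χ).2]
    have e : ∑ χ' ∈ Finset.univ.filter (fun χ' => hammingDist χ χ' = 1),
        (Polynomial.derivative (h χ')).eval t = b * (((lamE γ - 2 : ℤ) : ℂ) * chr χ γ) := by
      rw [← hPEV K n χ γ, Finset.mul_sum]
      exact Finset.sum_congr rfl fun χ' _ => (hh χ').2
    rw [e]
    push_cast
    ring
  have hcard : (Fintype.card (Cell n) : ℂ) ≠ 0 :=
    Nat.cast_ne_zero.2 Fintype.card_ne_zero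
  have inv : ∀ (H : Cell n → Polynomial ℂ) (c : Cell n),
      (Fintype.card (Cell n) : ℂ) * (H c).eval t = ∑ χ, chr χ (-c) * (hatF H χ).eval t := by
    intro H c
    have := congrArg (Polynomial.eval t) (p6 H c)
    rw [Polynomial.eval_mul, Polynomial.eval_C, Polynomial.eval_finsetSum] at this
    rw [this]
    exact Finset.sum_congr rfl fun χ _ => by rw [Polynomial.eval_mul, Polynomial.eval_C]
  have invd : ∀ (H : Cell n → Polynomial ℂ) (c : Cell n),
      (Fintype.card (Cell n) : ℂ) * (Polynomial.derivative (H c)).eval t =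
        ∑ χ, chr χ (-c) * (Polynomial.derivative (hatF H χ)).eval t := by
    intro H c
    have h2 := congrArg Polynomial.derivative (p6 H c)
    rw [Polynomial.derivative_C_mul, Polynomial.derivative_sum] at h2
    have := congrArg (Polynomial.eval t) h2
    rw [Polynomial.eval_mul, Polynomial.eval_C, Polynomial.eval_finsetSum] at this
    rw [this]
    exact Finset.sum_congr rfl fun χ _ => by
      rw [Polynomial.derivative_C_mul, Polynomial.eval_mul, Polynomial.eval_C]
  constructor
  · intro c
    apply mul_left_cancel₀ hcard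
    rw [inv F c, inv G c]
    refine Finset.sum_congr rfl fun χ _ => ?_
    rw [hFG χ, Polynomial.eval_mul, hs1 χ, one_mul]
  · intro c
    apply mul_left_cancel₀ hcard
    have e1 : (Fintype.card (Cell n) : ℂ) * ((Polynomial.derivative (G c)).eval t +
        b * (lamE γ : ℂ) * (G (c - γ)).eval t) =
        (Fintype.card (Cell n) : ℂ) * (Polynomial.derivative (G c)).eval t +
          b * (lamE γ : ℂ) * ((Fintype.card (Cell n) : ℂ) * (G (c - γ)).eval t) := by ring
    rw [e1, invd F c, invd G c, inv G (c - γ), Finset.mul_sum, ← Finset.sum_add_distrib]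
    refine Finset.sum_congr rfl fun χ _ => ?_
    have e2 : chr χ (-(c - γ)) = chr χ (-c) * chr χ γ := by
      rw [← p1]
      congr 1
      abel
    rw [hFG χ, Polynomial.derivative_mul, Polynomial.eval_add, Polynomial.eval_mul,
      Polynomial.eval_mul, hs1 χ, hs2 χ, e2]
    ring

end Pool.Agent.SV
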